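import Pool.Agent.Lib.MP_4fbe7c_an.WN.Iface

/-!
Project WN (MP_4fbe7c_an), module PHI: the function `Φ` (helper67).
-/

set_option autoImplicit false

open Set MeasureTheory Filter Topology

namespace Pool.Agent.Lib.MP_4fbe7c_an.WN.H67

open Pool.Agent.Lib.MP_4fbe7c_an.WN

theorem hasDerivAt_P {r : ℝ} (hr : 0 < r) :
    HasDerivAt (fun r : ℝ => 2 * r - Real.log r - r ^ 2 / 2) (-((1 - r) ^ 2 / r)) r := by
  have h1 : HasDerivAt (fun r : ℝ => 2 * r - Real.log r - r ^ 2 / 2)
      (2 * 1 - r⁻¹ - (2 * r ^ (2 - 1) * 1) / 2) r := by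
    exact (((hasDerivAt_id r).const_mul 2).sub (Real.hasDerivAt_log hr.ne')).sub
      (((hasDerivAt_id r).pow 2).div_const 2)
  convert h1 using 1
  field_simp
  ring

theorem hasDerivAt_P1 {r : ℝ} (hr : 0 < r) :
    HasDerivAt (fun r : ℝ => -((1 - r) ^ 2 / r)) (1 / r ^ 2 - 1) r := by
  have h1 : HasDerivAt (fun r : ℝ => -((1 - r) ^ 2 / r))
      (-(((2 * (1 - r) ^ (2 - 1) * (0 - 1)) * r - (1 - r) ^ 2 * 1) / r ^ 2)) r := by
    exact ((((hasDerivAt_const r (1 : ℝ)).sub (hasDerivAt_id r)).pow 2).div (hasDerivAt_id r)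
      hr.ne').neg
  convert h1 using 1
  field_simp
  ring

/-- gluing at `1` -/
theorem glue {f : ℝ → ℝ} {f' : ℝ → ℝ} {c : ℝ} (hf : ∀ r, 0 < r → HasDerivAt f (f' r) r)
    (h1 : f 1 = c) (h2 : f' 1 = 0) (r : ℝ) (hr : 0 < r) :
    HasDerivAt (fun r => if r < 1 then f r else c) (if r < 1 then f' r else 0) r := by
  rcases lt_trichotomy r 1 with h | h | h
  · rw [if_pos h]
    refine (hf r hr).congr_of_eventuallyEq ?_
    filter_upwards [Iio_mem_nhds h] with x hx
    rw [if_pos (show x < 1 from hx)]
  · subst h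
    rw [if_neg (lt_irrefl _)]
    have hl : HasDerivWithinAt (fun r => if r < 1 then f r else c) 0 (Iic 1) 1 := by
      have h3 : HasDerivWithinAt f 0 (Iic 1) 1 := h2 ▸ (hf 1 hr).hasDerivWithinAt
      refine h3.congr ?_ ?_
      · intro x hx
        rcases lt_or_eq_of_le (show x ≤ 1 from hx) with h4 | h4
        · rw [if_pos h4]
        · rw [if_neg (by rw [h4]; exact lt_irrefl _), h4, h1]
      · rw [if_neg (lt_irrefl _), h1]
    have hr' : HasDerivWithinAt (fun r => if r < 1 then f r else c) 0 (Ici 1) 1 := by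
      refine (hasDerivWithinAt_const (1 : ℝ) (Ici 1) c).congr ?_ ?_
      · intro x hx
        rw [if_neg (not_lt.mpr hx)]
      · rw [if_neg (lt_irrefl _)]
    have := hl.union hr'
    rw [Iic_union_Ici, hasDerivWithinAt_univ] at this
    exact this
  · rw [if_neg (not_lt.mpr h.le)]
    refine (hasDerivAt_const r c).congr_of_eventuallyEq ?_
    filter_upwards [Ioi_mem_nhds h] with x hx
    rw [if_neg (not_lt.mpr (le_of_lt hx))]

theorem log_bound {r : ℝ} (hr : 0 < r) (h1 : r ≤ 1) :
    3 / 2 + (1 - r) ^ 3 / 3 ≤ 2 * r - Real.log r - r ^ 2 / 2 := by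
  have hs : |1 - r| < 1 := by
    rw [abs_lt]; constructor <;> linarith
  have h := Real.hasSum_pow_div_log_of_abs_lt_one hs
  have h2 := sum_le_hasSum (Finset.range 3) (fun i _ => by
    have : 0 ≤ (1 - r) ^ (i + 1) := pow_nonneg (by linarith) _
    positivity) h
  simp only [Finset.sum_range_succ, Finset.sum_range_zero] at h2
  have h3 : (1 : ℝ) - (1 - r) = r := by ring
  rw [h3] at h2
  norm_num at h2
  nlinarith [h2]

theorem phi_st : PhiStatement := by
  refine ⟨?_, ?_⟩
  · intro r hr
    refine ⟨?_, ?_, ?_, ?_, ?_, ?_⟩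
    · have := glue (f := fun r : ℝ => 2 * r - Real.log r - r ^ 2 / 2)
        (f' := fun r => -((1 - r) ^ 2 / r)) (c := 3 / 2) (fun r hr => hasDerivAt_P hr)
        (by norm_num) (by norm_num) r hr
      exact this
    · have := glue (f := fun r : ℝ => -((1 - r) ^ 2 / r))
        (f' := fun r => 1 / r ^ 2 - 1) (c := 0) (fun r hr => hasDerivAt_P1 hr)
        (by norm_num) (by norm_num) r hr
      exact this
    · unfold Ph2
      split_ifs with h
      · have : r ^ 2 ≤ 1 := by nlinarith
        rw [sub_nonneg, le_div_iff₀ (by positivity)]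
        linarith
      · exact le_rfl
    · unfold Ph1
      split_ifs with h
      · have : 0 ≤ (1 - r) ^ 2 / r := by positivity
        linarith
      · exact le_rfl
    · unfold Ph
      split_ifs with h
      · have h1 := log_bound hr h.le
        have : 0 ≤ (1 - r) ^ 3 / 3 := by
          have : 0 ≤ (1 - r) ^ 3 := pow_nonneg (by linarith) _
          positivity
        linarith
      · exact le_rfl
    · intro h1
      unfold Ph
      split_ifs with h
      · exact log_bound hr h1
      · have : r = 1 := le_antisymm h1 (not_lt.mp h)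
        subst this
        norm_num
  · have hc : ContinuousOn (fun r : ℝ => max (1 / r ^ 2 - 1) 0) (Ioi 0) := by
      refine ContinuousOn.sup ?_ continuousOn_const
      refine ContinuousOn.sub (ContinuousOn.div continuousOn_const (continuousOn_pow 2) ?_)
        continuousOn_const
      intro x hx
      have : (0 : ℝ) < x := hx
      positivity
    refine hc.congr ?_
    intro x hx
    have hx0 : (0 : ℝ) < x := hx
    show Ph2 x = max (1 / x ^ 2 - 1) 0
    unfold Ph2
    split_ifs with h
    · rw [max_eq_left]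
      rw [sub_nonneg, le_div_iff₀ (by positivity)]
      nlinarith
    · rw [max_eq_right]
      have h1 : 1 ≤ x := not_lt.mp h
      rw [sub_nonpos, div_le_one (by positivity)]
      nlinarith

end Pool.Agent.Lib.MP_4fbe7c_an.WN.H67
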